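import Mathlib

/-!
# Faithful unit-distance dimension versus maximum degree

Erdős and Simonovits asked whether the faithful dimension of every graph with at least one edge
is at most its maximum degree.  We show that this fails for every maximum degree `d ≥ 3`: the
complete bipartite graph `K_{d,d}` with a matching of `d - 3` edges removed has maximum degree `d`
and faithful dimension exactly `d + 1`.
-/

set_option autoImplicit false

open scoped RealInnerProductSpace

namespace Pool.Agent.Results.MP_890457_co.DimExceedsDegree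

/-- `G` is isomorphic to an induced subgraph of the unit distance graph of `ℝ ^ D`: there is an
injective map into `ℝ ^ D` such that two distinct vertices are at distance `1` if and only if they
are adjacent. -/
def FaithfulIn {V : Type} (G : SimpleGraph V) (D : ℕ) : Prop :=
  ∃ φ : V → EuclideanSpace ℝ (Fin D), Function.Injective φ ∧
    ∀ u v, u ≠ v → (dist (φ u) (φ v) = 1 ↔ G.Adj u v)

/-- The faithful dimension: the least `D ≥ 1` such that `G` is isomorphic to an induced subgraph
of the unit distance graph of `ℝ ^ D`. -/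
noncomputable def faithfulDim {V : Type} (G : SimpleGraph V) : ℕ :=
  sInf {D : ℕ | 1 ≤ D ∧ FaithfulIn G D}

/-- `K_{d,d}`, `d = k + 3`, minus a matching of size `k`. -/
def W (k : ℕ) : SimpleGraph ((Fin 3 ⊕ Fin k) × Bool) where
  Adj p q := p.2 ≠ q.2 ∧ (p.1 = q.1 → p.1.isLeft = true)
  symm := ⟨fun p q h => ⟨h.1.symm, fun e => by rw [← h.2 e.symm, e]⟩⟩
  loopless := ⟨fun p h => h.1 rfl⟩

instance (k : ℕ) : DecidableRel (W k).Adj := fun p q => by
  unfold W; infer_instance

section Geometry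

variable {E : Type} [NormedAddCommGroup E] [InnerProductSpace ℝ E]

theorem polar (x x' y y' : E) :
    ‖x - y‖ ^ 2 - ‖x - y'‖ ^ 2 - ‖x' - y‖ ^ 2 + ‖x' - y'‖ ^ 2 = -2 * ⟪x - x', y - y'⟫ := by
  simp only [norm_sub_sq_real, inner_sub_left, inner_sub_right]
  ring

theorem orth {x x' y y' : E} (h1 : dist x y = 1) (h2 : dist x y' = 1) (h3 : dist x' y = 1)
    (h4 : dist x' y' = 1) : ⟪x - x', y - y'⟫ = 0 := by
  have := polar x x' y y'
  rw [← dist_eq_norm, ← dist_eq_norm, ← dist_eq_norm, ← dist_eq_norm, h1, h2, h3, h4] at this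
  linarith

/-- Three distinct points of a unit sphere are not collinear. -/
theorem three {c x0 x1 x2 : E} (h0 : dist x0 c = 1) (h1 : dist x1 c = 1) (h2 : dist x2 c = 1)
    (h01 : x1 ≠ x0) (h02 : x2 ≠ x0) (h12 : x1 ≠ x2) {α β : ℝ}
    (h : α • (x1 - x0) + β • (x2 - x0) = 0) : α = 0 ∧ β = 0 := by
  have hp : x1 - x0 ≠ 0 := sub_ne_zero.2 h01
  have hq : x2 - x0 ≠ 0 := sub_ne_zero.2 h02
  have hpq : x1 - x0 - (x2 - x0) ≠ 0 := by
    simpa [sub_sub_sub_cancel_right] using sub_ne_zero.2 h12
  have e1 : ‖x1 - c‖ ^ 2 = ‖x1 - x0‖ ^ 2 + 2 * ⟪x1 - x0, x0 - c⟫ + ‖x0 - c‖ ^ 2 := by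
    rw [← norm_add_sq_real, sub_add_sub_cancel]
  have e2 : ‖x2 - c‖ ^ 2 = ‖x2 - x0‖ ^ 2 + 2 * ⟪x2 - x0, x0 - c⟫ + ‖x0 - c‖ ^ 2 := by
    rw [← norm_add_sq_real, sub_add_sub_cancel]
  rw [← dist_eq_norm x1 c, ← dist_eq_norm x0 c, h1, h0] at e1
  rw [← dist_eq_norm x2 c, ← dist_eq_norm x0 c, h2, h0] at e2
  generalize hpd : x1 - x0 = p at *
  generalize hqd : x2 - x0 = q at *
  generalize x0 - c = w at *
  have i1 : α * ⟪p, w⟫ + β * ⟪q, w⟫ = 0 := by
    have := congrArg (fun z => ⟪z, w⟫) h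
    simpa [inner_add_left, real_inner_smul_left] using this
  have i2 : α * ‖p‖ ^ 2 + β * ⟪p, q⟫ = 0 := by
    have := congrArg (fun z => ⟪p, z⟫) h
    simpa [inner_add_right, real_inner_smul_right, real_inner_self_eq_norm_sq] using this
  have i3 : α * ⟪p, q⟫ + β * ‖q‖ ^ 2 = 0 := by
    have := congrArg (fun z => ⟪q, z⟫) h
    simpa [inner_add_right, real_inner_smul_right, real_inner_self_eq_norm_sq,
      real_inner_comm] using this
  have hpp : 0 < ‖p‖ ^ 2 := by positivity
  have hqq : 0 < ‖q‖ ^ 2 := by positivity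
  have hd : 0 < ‖p - q‖ ^ 2 := by positivity
  rw [norm_sub_sq_real] at hd
  by_contra hcon
  have hα : α ≠ 0 := by
    rintro rfl
    apply hcon
    refine ⟨rfl, ?_⟩
    have : β * ‖q‖ ^ 2 = 0 := by linarith
    rcases mul_eq_zero.1 this with h | h
    · exact h
    · exact absurd h hqq.ne'
  have hβ : β ≠ 0 := by
    rintro rfl
    apply hα
    have : α * ‖p‖ ^ 2 = 0 := by linarith
    rcases mul_eq_zero.1 this with h | h
    · exact h
    · exact absurd h hpp.ne'
  have j : α * ‖p‖ ^ 2 + β * ‖q‖ ^ 2 = 0 := by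
    linear_combination (-α) * e1 + (-β) * e2 - 2 * i1
  have k1 : β * (⟪p, q⟫ - ‖q‖ ^ 2) = 0 := by linear_combination i2 - j
  have k2 : α * (⟪p, q⟫ - ‖p‖ ^ 2) = 0 := by linear_combination i3 - j
  have l1 : ⟪p, q⟫ - ‖q‖ ^ 2 = 0 := (mul_eq_zero.1 k1).resolve_left hβ
  have l2 : ⟪p, q⟫ - ‖p‖ ^ 2 = 0 := (mul_eq_zero.1 k2).resolve_left hα
  linarith

end Geometry

/-- Lower bound. -/
theorem lower {k D : ℕ} (h : FaithfulIn (W k) D) : k + 4 ≤ D := by
  obtain ⟨φ, hinj, hφ⟩ := h
  have hab : ∀ i j : Fin 3 ⊕ Fin k, (i = j → i.isLeft = true) →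
      dist (φ (i, false)) (φ (j, true)) = 1 := fun i j hij =>
    (hφ (i, false) (j, true) (by simp)).2 ⟨by simp, hij⟩
  have hne : ∀ i : Fin k, dist (φ (Sum.inr i, false)) (φ (Sum.inr i, true)) ≠ 1 := fun i hi => by
    have := ((hφ (Sum.inr i, false) (Sum.inr i, true) (by simp)).1 hi).2 rfl
    simp at this
  have hneq : ∀ (s : Bool) (i j : Fin 3 ⊕ Fin k), i ≠ j → φ (i, s) ≠ φ (j, s) := fun s i j hij he =>
    hij (congrArg Prod.fst (hinj he))
  let v : Fin 2 ⊕ (Fin 2 ⊕ Fin k) → EuclideanSpace ℝ (Fin D) :=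
    Sum.elim (fun i => φ (Sum.inl i.succ, false) - φ (Sum.inl 0, false))
      (Sum.elim (fun i => φ (Sum.inl i.succ, true) - φ (Sum.inl 0, true))
        (fun i => φ (Sum.inr i, true) - φ (Sum.inl 0, true)))
  have hv : LinearIndependent ℝ v := by
    rw [Fintype.linearIndependent_iff]
    intro g hg
    rw [Fintype.sum_sum_type] at hg
    set SA := ∑ i : Fin 2, g (Sum.inl i) • v (Sum.inl i) with hSA
    set SB := ∑ i : Fin 2 ⊕ Fin k, g (Sum.inr i) • v (Sum.inr i) with hSB
    have horth : ⟪SA, SB⟫ = 0 := by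
      rw [hSA, hSB, sum_inner]
      refine Finset.sum_eq_zero fun i _ => ?_
      rw [inner_sum]
      refine Finset.sum_eq_zero fun j _ => ?_
      rw [real_inner_smul_left, real_inner_smul_right]
      have : ⟪v (Sum.inl i), v (Sum.inr j)⟫ = 0 := by
        rcases j with j | j
        · exact orth (hab _ _ (by simp)) (hab _ _ (by simp)) (hab _ _ (by simp))
            (hab _ _ (by simp))
        · exact orth (hab _ _ (by simp)) (hab _ _ (by simp)) (hab _ _ (by simp))
            (hab _ _ (by simp))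
      rw [this]; ring
    have hSA0 : SA = 0 := by
      have h1 : SA = -SB := eq_neg_of_add_eq_zero_left hg
      rw [h1, inner_neg_left, neg_eq_zero, inner_self_eq_zero] at horth
      rw [h1, horth, neg_zero]
    have hSB0 : SB = 0 := by rw [hSA0, zero_add] at hg; exact hg
    -- the part `A`
    have hA : g (Sum.inl 0) = 0 ∧ g (Sum.inl 1) = 0 := by
      rw [hSA, Fin.sum_univ_two] at hSA0
      refine three (c := φ (Sum.inl 0, true)) (x0 := φ (Sum.inl 0, false))
        (x1 := φ (Sum.inl 1, false)) (x2 := φ (Sum.inl 2, false)) (hab _ _ (by simp))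
        (hab _ _ (by simp)) (hab _ _ (by simp)) (hneq _ _ _ (by simp)) (hneq _ _ _ (by simp))
        (hneq _ _ _ (by simp)) hSA0
    rw [Fintype.sum_sum_type] at hSB
    -- the matched vertices
    have hC : ∀ i : Fin k, g (Sum.inr (Sum.inr i)) = 0 := by
      intro i
      have h1 : ⟪φ (Sum.inr i, false) - φ (Sum.inl 0, false), SB⟫ = 0 := by
        rw [hSB0, inner_zero_right]
      rw [hSB, inner_add_right, inner_sum, inner_sum] at h1
      have h2 : ∑ j : Fin 2, ⟪φ (Sum.inr i, false) - φ (Sum.inl 0, false),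
          g (Sum.inr (Sum.inl j)) • v (Sum.inr (Sum.inl j))⟫ = 0 := by
        refine Finset.sum_eq_zero fun j _ => ?_
        rw [real_inner_smul_right]
        have : ⟪φ (Sum.inr i, false) - φ (Sum.inl 0, false), v (Sum.inr (Sum.inl j))⟫ = 0 :=
          orth (hab _ _ (by simp)) (hab _ _ (by simp)) (hab _ _ (by simp)) (hab _ _ (by simp))
        rw [this, mul_zero]
      rw [h2, zero_add, Finset.sum_eq_single i] at h1
      · rw [real_inner_smul_right] at h1
        refine (mul_eq_zero.1 h1).resolve_right ?_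
        intro h3
        have h4 := polar (φ (Sum.inr i, false)) (φ (Sum.inl 0, false)) (φ (Sum.inr i, true))
          (φ (Sum.inl 0, true))
        have h5 : ⟪φ (Sum.inr i, false) - φ (Sum.inl 0, false),
          φ (Sum.inr i, true) - φ (Sum.inl 0, true)⟫ = 0 := h3
        rw [h5, ← dist_eq_norm, ← dist_eq_norm, ← dist_eq_norm, ← dist_eq_norm,
          hab (Sum.inr i) (Sum.inl 0) (by simp), hab (Sum.inl 0) (Sum.inr i) (by simp),
          hab (Sum.inl 0) (Sum.inl 0) (by simp)] at h4
        have h6 : dist (φ (Sum.inr i, false)) (φ (Sum.inr i, true)) ^ 2 = 1 := by linarith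
        have h7 : dist (φ (Sum.inr i, false)) (φ (Sum.inr i, true)) = 1 := by
          have h8 : (0 : ℝ) ≤ dist (φ (Sum.inr i, false)) (φ (Sum.inr i, true)) := dist_nonneg
          nlinarith
        exact hne i h7
      · intro j _ hj
        rw [real_inner_smul_right]
        have hij : i ≠ j := fun h => hj h.symm
        have : ⟪φ (Sum.inr i, false) - φ (Sum.inl 0, false), v (Sum.inr (Sum.inr j))⟫ = 0 :=
          orth (hab _ _ (by simp [hij])) (hab _ _ (by simp)) (hab _ _ (by simp))
            (hab _ _ (by simp))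
        rw [this, mul_zero]
      · intro h; exact absurd (Finset.mem_univ _) h
    have hB : g (Sum.inr (Sum.inl 0)) = 0 ∧ g (Sum.inr (Sum.inl 1)) = 0 := by
      have h1 : ∑ i : Fin k, g (Sum.inr (Sum.inr i)) • v (Sum.inr (Sum.inr i)) = 0 :=
        Finset.sum_eq_zero fun i _ => by rw [hC i, zero_smul]
      rw [h1, add_zero, hSB0, Fin.sum_univ_two] at hSB
      have hd : ∀ i j : Fin 3 ⊕ Fin k, (j = i → j.isLeft = true) →
          dist (φ (i, true)) (φ (j, false)) = 1 := fun i j hij => by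
        rw [dist_comm]; exact hab j i hij
      refine three (c := φ (Sum.inl 0, false)) (x0 := φ (Sum.inl 0, true))
        (x1 := φ (Sum.inl 1, true)) (x2 := φ (Sum.inl 2, true)) (hd _ _ (by simp))
        (hd _ _ (by simp)) (hd _ _ (by simp)) (hneq _ _ _ (by simp)) (hneq _ _ _ (by simp))
        (hneq _ _ _ (by simp)) hSB.symm
    intro i
    rcases i with i | i | i
    · fin_cases i
      · exact hA.1
      · exact hA.2
    · fin_cases i
      · exact hB.1
      · exact hB.2
    · exact hC i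
  have := hv.fintype_card_le_finrank
  simp only [Fintype.card_sum, Fintype.card_fin, finrank_euclideanSpace] at this
  omega

/-- Transfer of a faithful embedding to another index type. -/
theorem faithfulIn_of_index {V : Type} (G : SimpleGraph V) {ι : Type} [Fintype ι] {D : ℕ}
    (e : ι ≃ Fin D) (φ : V → EuclideanSpace ℝ ι) (hinj : Function.Injective φ)
    (hφ : ∀ u v, u ≠ v → (dist (φ u) (φ v) = 1 ↔ G.Adj u v)) : FaithfulIn G D := by
  let f := LinearIsometryEquiv.piLpCongrLeft 2 ℝ ℝ e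
  refine ⟨fun v => f (φ v), fun u v h => hinj (f.injective h), fun u v h => ?_⟩
  rw [f.dist_map]
  exact hφ u v h

/-- The plane coordinates of the points used for the upper bound. -/
noncomputable def pl {k : ℕ} : Fin 3 ⊕ Fin k → Fin 2 → ℝ :=
  Sum.elim ![![1, 0], ![3 / 5, 4 / 5], ![4 / 5, 3 / 5]] (fun _ => ![3 / 5, 0])

/-- The remaining coordinates of the points used for the upper bound. -/
noncomputable def tl {k : ℕ} : Fin 3 ⊕ Fin k → Fin k → ℝ :=
  Sum.elim (fun _ _ => 0) (fun i m => if m = i then 4 / 5 else 0)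

theorem tt_inl_left {k : ℕ} (i : Fin 3) (j : Fin 3 ⊕ Fin k) :
    ∑ m, tl (Sum.inl i) m * tl j m = 0 := by
  simp [tl]

theorem tt_inl_right {k : ℕ} (i : Fin 3) (j : Fin 3 ⊕ Fin k) :
    ∑ m, tl j m * tl (Sum.inl i) m = 0 := by
  simp [tl]

theorem tt_inr {k : ℕ} (i j : Fin k) :
    ∑ m, tl (Sum.inr i) m * tl (Sum.inr j) m = if i = j then 16 / 25 else 0 := by
  simp only [tl, Sum.elim_inr, ite_mul, zero_mul, Finset.sum_ite_eq', Finset.mem_univ, if_true,
    mul_ite, mul_zero]
  by_cases h : i = j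
  · rw [if_pos h, if_pos h.symm]; norm_num
  · rw [if_neg h, if_neg (fun e => h e.symm)]

theorem pp_tt_self {k : ℕ} (i : Fin 3 ⊕ Fin k) :
    ∑ t, pl i t * pl i t + ∑ m, tl i m * tl i m = 1 := by
  rcases i with i | i
  · rw [tt_inl_left]
    fin_cases i <;> simp [pl, Fin.sum_univ_two] <;> norm_num
  · rw [tt_inr]
    simp [pl, Fin.sum_univ_two]
    norm_num

theorem pp_tt_ne {k : ℕ} {i j : Fin 3 ⊕ Fin k} (hij : i ≠ j) :
    9 / 25 ≤ ∑ t, pl i t * pl j t + ∑ m, tl i m * tl j m ∧
      ∑ t, pl i t * pl j t + ∑ m, tl i m * tl j m < 1 := by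
  rcases i with i | i <;> rcases j with j | j
  · rw [tt_inl_left]
    fin_cases i <;> fin_cases j <;> first
      | exact absurd rfl hij
      | (simp [pl, Fin.sum_univ_two]; norm_num)
  · rw [tt_inl_left]
    fin_cases i <;> simp [pl, Fin.sum_univ_two] <;> norm_num
  · rw [tt_inl_right]
    fin_cases j <;> simp [pl, Fin.sum_univ_two] <;> norm_num
  · have h : i ≠ j := fun h => hij (by rw [h])
    rw [tt_inr, if_neg h]
    simp [pl, Fin.sum_univ_two]
    norm_num

/-- The points used for the upper bound. -/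
noncomputable def pt {k : ℕ} (p : (Fin 3 ⊕ Fin k) × Bool) :
    EuclideanSpace ℝ ((Fin 2 ⊕ Fin 2) ⊕ Fin k) :=
  WithLp.toLp 2 (if p.2 then
    Sum.elim (Sum.elim (fun _ => 0) (fun t => 4 / 5 * pl p.1 t)) (fun m => 4 / 5 * tl p.1 m)
  else
    Sum.elim (Sum.elim (fun t => 3 / 5 * pl p.1 t) (fun _ => 0)) (fun m => 3 / 5 * tl p.1 m))

theorem dist_sq_pt {k : ℕ} (p q : (Fin 3 ⊕ Fin k) × Bool) :
    dist (pt p) (pt q) ^ 2 = ∑ t, (pt p t - pt q t) ^ 2 := by
  rw [EuclideanSpace.dist_eq, Real.sq_sqrt (Finset.sum_nonneg fun _ _ => by positivity)]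
  simp [Real.dist_eq, sq_abs]

theorem dist_sq_ff {k : ℕ} (i j : Fin 3 ⊕ Fin k) :
    dist (pt (i, false)) (pt (j, false)) ^ 2 =
      9 / 25 * (2 - 2 * (∑ t, pl i t * pl j t + ∑ m, tl i m * tl j m)) := by
  have hi := pp_tt_self i
  have hj := pp_tt_self j
  rw [dist_sq_pt, Fintype.sum_sum_type, Fintype.sum_sum_type]
  have e1 : ∀ t, (pt (i, false) (Sum.inl (Sum.inl t)) - pt (j, false) (Sum.inl (Sum.inl t))) ^ 2 =
      9 / 25 * (pl i t * pl i t) + 9 / 25 * (pl j t * pl j t) - 18 / 25 * (pl i t * pl j t) := by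
    intro t; simp [pt]; ring
  have e2 : ∀ t, (pt (i, false) (Sum.inl (Sum.inr t)) - pt (j, false) (Sum.inl (Sum.inr t))) ^ 2 =
      0 := by
    intro t; simp [pt]
  have e3 : ∀ t, (pt (i, false) (Sum.inr t) - pt (j, false) (Sum.inr t)) ^ 2 =
      9 / 25 * (tl i t * tl i t) + 9 / 25 * (tl j t * tl j t) - 18 / 25 * (tl i t * tl j t) := by
    intro t; simp [pt]; ring
  simp only [e1, e2, e3, Finset.sum_add_distrib, Finset.sum_sub_distrib, ← Finset.mul_sum,
    Finset.sum_const_zero]
  linear_combination (9 / 25) * hi + (9 / 25) * hj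

theorem dist_sq_tt {k : ℕ} (i j : Fin 3 ⊕ Fin k) :
    dist (pt (i, true)) (pt (j, true)) ^ 2 =
      16 / 25 * (2 - 2 * (∑ t, pl i t * pl j t + ∑ m, tl i m * tl j m)) := by
  have hi := pp_tt_self i
  have hj := pp_tt_self j
  rw [dist_sq_pt, Fintype.sum_sum_type, Fintype.sum_sum_type]
  have e1 : ∀ t, (pt (i, true) (Sum.inl (Sum.inr t)) - pt (j, true) (Sum.inl (Sum.inr t))) ^ 2 =
      16 / 25 * (pl i t * pl i t) + 16 / 25 * (pl j t * pl j t) - 32 / 25 * (pl i t * pl j t) := by
    intro t; simp [pt]; ring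
  have e2 : ∀ t, (pt (i, true) (Sum.inl (Sum.inl t)) - pt (j, true) (Sum.inl (Sum.inl t))) ^ 2 =
      0 := by
    intro t; simp [pt]
  have e3 : ∀ t, (pt (i, true) (Sum.inr t) - pt (j, true) (Sum.inr t)) ^ 2 =
      16 / 25 * (tl i t * tl i t) + 16 / 25 * (tl j t * tl j t) - 32 / 25 * (tl i t * tl j t) := by
    intro t; simp [pt]; ring
  simp only [e1, e2, e3, Finset.sum_add_distrib, Finset.sum_sub_distrib, ← Finset.mul_sum,
    Finset.sum_const_zero]
  linear_combination (16 / 25) * hi + (16 / 25) * hj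

theorem dist_sq_ft {k : ℕ} (i j : Fin 3 ⊕ Fin k) :
    dist (pt (i, false)) (pt (j, true)) ^ 2 = 1 - 24 / 25 * ∑ m, tl i m * tl j m := by
  have hi := pp_tt_self i
  have hj := pp_tt_self j
  rw [dist_sq_pt, Fintype.sum_sum_type, Fintype.sum_sum_type]
  have e1 : ∀ t, (pt (i, false) (Sum.inl (Sum.inl t)) - pt (j, true) (Sum.inl (Sum.inl t))) ^ 2 =
      9 / 25 * (pl i t * pl i t) := by
    intro t; simp [pt]; ring
  have e2 : ∀ t, (pt (i, false) (Sum.inl (Sum.inr t)) - pt (j, true) (Sum.inl (Sum.inr t))) ^ 2 =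
      16 / 25 * (pl j t * pl j t) := by
    intro t; simp [pt]; ring
  have e3 : ∀ t, (pt (i, false) (Sum.inr t) - pt (j, true) (Sum.inr t)) ^ 2 =
      9 / 25 * (tl i t * tl i t) + 16 / 25 * (tl j t * tl j t) - 24 / 25 * (tl i t * tl j t) := by
    intro t; simp [pt]; ring
  simp only [e1, e2, e3, Finset.sum_add_distrib, Finset.sum_sub_distrib, ← Finset.mul_sum]
  linear_combination (9 / 25) * hi + (16 / 25) * hj

theorem dist_eq_one_iff {X : Type} [PseudoMetricSpace X] (x y : X) :
    dist x y = 1 ↔ dist x y ^ 2 = 1 := by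
  have : (0 : ℝ) ≤ dist x y := dist_nonneg
  constructor
  · intro h; rw [h]; norm_num
  · intro h; nlinarith

theorem tt_eq_zero_iff {k : ℕ} (i j : Fin 3 ⊕ Fin k) :
    ∑ m, tl i m * tl j m = 0 ↔ (i = j → i.isLeft = true) := by
  rcases i with i | i <;> rcases j with j | j
  · simp [tt_inl_left]
  · simp [tt_inl_left]
  · simp [tt_inl_right]
  · rw [tt_inr]
    by_cases h : i = j
    · simp [h]
    · simp [h]

/-- Upper bound. -/
theorem upper (k : ℕ) : FaithfulIn (W k) (k + 4) := by
  have e : ((Fin 2 ⊕ Fin 2) ⊕ Fin k) ≃ Fin (k + 4) :=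
    Fintype.equivFinOfCardEq (by simp; omega)
  have hlr : ∀ i j : Fin 3 ⊕ Fin k, dist (pt (i, false)) (pt (j, true)) = 1 ↔
      (i = j → i.isLeft = true) := by
    intro i j
    rw [dist_eq_one_iff, dist_sq_ft, ← tt_eq_zero_iff]
    constructor
    · intro h; linarith
    · intro h; rw [h]; norm_num
  have hff : ∀ i j : Fin 3 ⊕ Fin k, i ≠ j → 0 < dist (pt (i, false)) (pt (j, false)) ^ 2 ∧
      dist (pt (i, false)) (pt (j, false)) ^ 2 < 1 := by
    intro i j hij
    have := pp_tt_ne hij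
    rw [dist_sq_ff]
    constructor <;> linarith [this.1, this.2]
  have htt : ∀ i j : Fin 3 ⊕ Fin k, i ≠ j → 0 < dist (pt (i, true)) (pt (j, true)) ^ 2 ∧
      dist (pt (i, true)) (pt (j, true)) ^ 2 < 1 := by
    intro i j hij
    have := pp_tt_ne hij
    rw [dist_sq_tt]
    constructor <;> linarith [this.1, this.2]
  have hft : ∀ i j : Fin 3 ⊕ Fin k, 0 < dist (pt (i, false)) (pt (j, true)) ^ 2 := by
    intro i j
    rw [dist_sq_ft]
    rcases i with i | i
    · rw [tt_inl_left]; norm_num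
    · rcases j with j | j
      · rw [tt_inl_right]; norm_num
      · rw [tt_inr]; split_ifs <;> norm_num
  refine faithfulIn_of_index (W k) e pt ?_ ?_
  · rintro ⟨i, s⟩ ⟨j, t⟩ h
    have h0 : dist (pt (i, s)) (pt (j, t)) = 0 := by rw [h, dist_self]
    rcases s with _ | _ <;> rcases t with _ | _
    · by_contra hne
      have hij : i ≠ j := fun e => hne (by rw [e])
      have := (hff i j hij).1
      rw [h0] at this; norm_num at this
    · have := hft i j
      rw [h0] at this; norm_num at this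
    · have := hft j i
      rw [dist_comm, h0] at this; norm_num at this
    · by_contra hne
      have hij : i ≠ j := fun e => hne (by rw [e])
      have := (htt i j hij).1
      rw [h0] at this; norm_num at this
  · rintro ⟨i, s⟩ ⟨j, t⟩ hne
    rcases s with _ | _ <;> rcases t with _ | _
    · have hij : i ≠ j := fun e => hne (by rw [e])
      have h1 := (hff i j hij).2
      constructor
      · intro h; rw [h] at h1; norm_num at h1
      · intro h; exact absurd rfl h.1
    · rw [hlr]
      constructor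
      · intro h; exact ⟨by simp, h⟩
      · intro h; exact h.2
    · rw [dist_comm, hlr]
      constructor
      · intro h; exact ⟨by simp, fun e => by rw [e]; exact h e.symm ▸ rfl⟩
      · intro h e; rw [e]; exact h.2 e.symm
    · have hij : i ≠ j := fun e => hne (by rw [e])
      have h1 := (htt i j hij).2
      constructor
      · intro h; rw [h] at h1; norm_num at h1
      · intro h; exact absurd rfl h.1

/-- The faithful dimension of `W k` is `k + 4`. -/
theorem faithfulDim_W (k : ℕ) : faithfulDim (W k) = k + 4 := by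
  apply le_antisymm
  · exact Nat.sInf_le ⟨by omega, upper k⟩
  · exact le_csInf ⟨k + 4, by omega, upper k⟩ (fun D hD => lower hD.2)

/-- The maximum degree of `W k` is `k + 3`. -/
theorem maxDegree_W (k : ℕ) : (W k).maxDegree = k + 3 := by
  apply le_antisymm
  · apply SimpleGraph.maxDegree_le_of_forall_degree_le
    rintro ⟨i, s⟩
    have hsub : (W k).neighborFinset (i, s) ⊆ (Finset.univ : Finset (Fin 3 ⊕ Fin k)) ×ˢ {!s} := by
      rintro ⟨j, t⟩ h
      rw [SimpleGraph.mem_neighborFinset] at h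
      have h1 : s ≠ t := h.1
      simp only [Finset.mem_product, Finset.mem_univ, Finset.mem_singleton, true_and]
      cases s <;> cases t <;> simp_all
    calc (W k).degree (i, s) = ((W k).neighborFinset (i, s)).card := rfl
      _ ≤ ((Finset.univ : Finset (Fin 3 ⊕ Fin k)) ×ˢ {!s}).card := Finset.card_le_card hsub
      _ = k + 3 := by simp [add_comm]
  · refine le_trans ?_ ((W k).degree_le_maxDegree (Sum.inl 0, false))
    have hsub : (Finset.univ : Finset (Fin 3 ⊕ Fin k)) ×ˢ {true} ⊆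
        (W k).neighborFinset (Sum.inl 0, false) := by
      rintro ⟨j, t⟩ h
      simp only [Finset.mem_product, Finset.mem_univ, Finset.mem_singleton, true_and] at h
      rw [SimpleGraph.mem_neighborFinset]
      subst h
      exact ⟨by simp, fun _ => rfl⟩
    calc k + 3 = ((Finset.univ : Finset (Fin 3 ⊕ Fin k)) ×ˢ {true}).card := by simp [add_comm]
      _ ≤ ((W k).neighborFinset (Sum.inl 0, false)).card := Finset.card_le_card hsub
      _ = (W k).degree (Sum.inl 0, false) := rfl

/-- For every `d ≥ 3` there is a finite bipartite graph with maximum degree `d` and faithful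
dimension `d + 1`. -/
theorem result : ∀ d : ℕ, 3 ≤ d → ∃ (V : Type) (_ : Fintype V) (G : SimpleGraph V)
    (_ : DecidableRel G.Adj), G.IsBipartite ∧ G.maxDegree = d ∧ faithfulDim G = d + 1 := by
  intro d hd
  obtain ⟨k, rfl⟩ : ∃ k, d = k + 3 := ⟨d - 3, by omega⟩
  refine ⟨(Fin 3 ⊕ Fin k) × Bool, inferInstance, W k, inferInstance, ?_, maxDegree_W k,
    faithfulDim_W k⟩
  exact ⟨SimpleGraph.Coloring.mk (fun p => if p.2 then 1 else 0) (by
    rintro ⟨i, s⟩ ⟨j, t⟩ h
    have h1 : s ≠ t := h.1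
    cases s <;> cases t <;> simp_all)⟩

end Pool.Agent.Results.MP_890457_co.DimExceedsDegree
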